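import Pool.Agent.W544.PG.Defs8
import Pool.Agent.W544.PG.MainP3
import Pool.Agent.W544.PG.Final2

/-!
# Project TP, BLK: several blocks
-/

set_option autoImplicit false

open Matrix Finset Module

namespace Pool.Agent.W460.TP

open Pool.Agent.W544.PG

noncomputable section

variable {n r : ℕ} {c : Fin n → Fin r} {k : ℕ} {e : Fin k → Fin n} {i : Fin r}

theorem sub_T (A : Matrix (Fin n) (Fin n) ℂ) : (A.submatrix e e)ᵀ = Aᵀ.submatrix e e := rfl

theorem sub_H (A : Matrix (Fin n) (Fin n) ℂ) : (A.submatrix e e)ᴴ = Aᴴ.submatrix e e := rfl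

theorem sub_br (he : Enum c e i) {y z : Matrix (Fin n) (Fin n) ℂ} (hy : BD c y) (hz : BD c z) :
    (y * z - z * y).submatrix e e =
      y.submatrix e e * z.submatrix e e - z.submatrix e e * y.submatrix e e := by
  rw [← he.sub_mul hz, ← he.sub_mul hy]
  rfl

theorem sub_cube (he : Enum c e i) {x : Matrix (Fin n) (Fin n) ℂ} (hx : BD c x)
    (hc : x * x * x = x) :
    x.submatrix e e * x.submatrix e e * x.submatrix e e = x.submatrix e e := by
  rw [← he.sub_mul hx, ← he.sub_mul hx, hc]

theorem sub_trace (he : Enum c e i) {x : Matrix (Fin n) (Fin n) ℂ} (hx : BD c x) (z : ℂ)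
    (htr : ∑ a with c a = i, (x * x) a a = z) :
    (x.submatrix e e * x.submatrix e e).trace = z := by
  rw [← he.sub_mul hx, ← htr, Matrix.trace]
  simp only [Matrix.diag_apply, Matrix.submatrix_apply]
  have h1 : (univ.filter fun a => c a = i) = univ.image e := by
    ext a
    simp only [Finset.mem_filter, Finset.mem_univ, true_and, Finset.mem_image]
    constructor
    · intro h
      exact he.surj a h
    · rintro ⟨j, rfl⟩
      exact he.col j
  rw [h1, Finset.sum_image (fun x _ y _ h => he.inj h)]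

/-- an operator between blocks -/
theorem comm_sel {l : ℕ} {e' : Fin l → Fin n} {i' : Fin r} (he : Enum c e i) (he' : Enum c e' i')
    {y : Matrix (Fin n) (Fin n) ℂ} (hy : BD c y) (A : Matrix (Fin l) (Fin k) ℂ)
    (hA : A * y.submatrix e e = y.submatrix e' e' * A) :
    sel e' * A * (sel e)ᵀ * y = y * (sel e' * A * (sel e)ᵀ) := by
  calc sel e' * A * (sel e)ᵀ * y = sel e' * A * ((sel e)ᵀ * y) := by
        simp only [Matrix.mul_assoc]
    _ = sel e' * A * (y.submatrix e e * (sel e)ᵀ) := by rw [he.selT_mul hy]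
    _ = sel e' * (A * y.submatrix e e) * (sel e)ᵀ := by simp only [Matrix.mul_assoc]
    _ = sel e' * (y.submatrix e' e' * A) * (sel e)ᵀ := by rw [hA]
    _ = (sel e' * y.submatrix e' e') * A * (sel e)ᵀ := by simp only [Matrix.mul_assoc]
    _ = (y * sel e') * A * (sel e)ᵀ := by rw [he'.mul_sel hy]
    _ = _ := by simp only [Matrix.mul_assoc]

/-- BLK -/
theorem blk (hone : S_one) : S_blk := by
  intro n r c p q h x hbd hsk hst hbr hx hxh hcube htr hrk hcop hnum hcom Z hZ hZc
  choose e he using fun i => exists_enum c i (hrk i)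
  have hm : ∀ i, 3 ≤ 2 * p i + q i ∧ 2 * p i + q i ≠ 4 ∧ (p i = 1 ∨ 2 * p i + q i ≠ 8) := by
    intro i
    rcases hnum i with h | ⟨h0, h⟩
    · omega
    · have hlt : 2 * p i < q i := by
        by_contra h'
        rw [Nat.sub_eq_zero_of_le (not_lt.1 h'), zero_mul] at h
        omega
      omega
  have hp : ∀ i, 0 < p i := by
    intro i
    rcases hnum i with h | h
    · omega
    · exact h.1
  have hsurj : ∀ (i : Fin r) (Z : Matrix (Fin (2 * p i + q i)) (Fin (2 * p i + q i)) ℂ),
      Zᵀ = -Z → ∃ y ∈ h, y.submatrix (e i) (e i) = Z := by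
    intro i Z hZ
    have h1 := hone (2 * p i + q i) (p i) (q i) (h.map (subL (e i))) (x.submatrix (e i) (e i))
      (hp i) (by
        rcases hnum i with h | h
        · exact Or.inl h.1
        · exact Or.inr h.2) (hcop i) rfl ?_ ?_ ?_ ⟨x, hx, rfl⟩ (by rw [sub_H, hxh])
        (sub_cube (he i) (hbd x hx) hcube) (sub_trace (he i) (hbd x hx) _ (htr i)) ?_ Z hZ
    · obtain ⟨y, hy, hyZ⟩ := h1
      exact ⟨y, hy, hyZ⟩
    · rintro _ ⟨y, hy, rfl⟩
      change (y.submatrix (e i) (e i))ᵀ = -(y.submatrix (e i) (e i))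
      rw [sub_T, hsk y hy]
      rfl
    · rintro _ ⟨y, hy, rfl⟩
      exact ⟨yᴴ, hst y hy, rfl⟩
    · rintro _ ⟨y, hy, rfl⟩ _ ⟨z, hz, rfl⟩
      refine ⟨y * z - z * y, hbr y hy z hz, ?_⟩
      exact sub_br (he i) (hbd y hy) (hbd z hz)
    · intro C hC
      obtain ⟨d, hd⟩ := hcom (sel (e i) * C * (sel (e i))ᵀ) (fun y hy =>
        comm_sel (he i) (he i) (hbd y hy) C (hC _ ⟨y, hy, rfl⟩))
      refine ⟨d i, ?_⟩
      have h2 : (sel (e i))ᵀ * (sel (e i) * C * (sel (e i))ᵀ) * sel (e i) = C := by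
        calc (sel (e i))ᵀ * (sel (e i) * C * (sel (e i))ᵀ) * sel (e i) =
            ((sel (e i))ᵀ * sel (e i)) * C * ((sel (e i))ᵀ * sel (e i)) := by
              simp only [Matrix.mul_assoc]
          _ = C := by rw [sel_T_sel _ (he i).inj, Matrix.one_mul, Matrix.mul_one]
      rw [hd, ← sub_eq] at h2
      rw [← h2]
      ext j j'
      rw [Matrix.submatrix_apply, Matrix.diagonal_apply, Matrix.smul_apply, Matrix.one_apply]
      by_cases hj : j = j'
      · subst hj
        simp [(he i).col]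
      · rw [if_neg fun h => hj ((he i).inj h), if_neg hj]
        simp
  obtain ⟨ph, hph⟩ : ∃ ph : Matrix (Fin n) (Fin n) ℂ →ₗ[ℂ]
      (∀ i : Fin r, Matrix (Fin (2 * p i + q i)) (Fin (2 * p i + q i)) ℂ),
      ∀ y i, ph y i = y.submatrix (e i) (e i) := ⟨LinearMap.pi fun i => subL (e i),
        fun y i => rfl⟩
  obtain ⟨H, hH⟩ : ∃ H, H = h.map ph := ⟨_, rfl⟩
  have mem : ∀ y ∈ h, ph y ∈ H := fun y hy => by
    rw [hH]; exact ⟨y, hy, rfl⟩
  have A1 : ∀ y ∈ H, ∀ i, (y i)ᵀ = -y i := by
    rw [hH]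
    rintro _ ⟨y, hy, rfl⟩ i
    rw [hph, sub_T, hsk y hy]
    rfl
  have A2 : ∀ y ∈ H, ∀ z ∈ H, (fun i => br (y i) (z i)) ∈ H := by
    rw [hH]
    rintro _ ⟨y, hy, rfl⟩ _ ⟨z, hz, rfl⟩
    refine ⟨y * z - z * y, hbr y hy z hz, ?_⟩
    funext i
    rw [hph, hph, hph]
    exact sub_br (he i) (hbd y hy) (hbd z hz)
  have A3 : ∀ (i : Fin r) (Z : Matrix (Fin (2 * p i + q i)) (Fin (2 * p i + q i)) ℂ),
      Zᵀ = -Z → ∃ y ∈ H, y i = Z := by
    intro i Z hZ
    obtain ⟨y, hy, hyZ⟩ := hsurj i Z hZ
    exact ⟨_, mem y hy, by rw [hph, hyZ]⟩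
  have A4 : ∀ i j, i ≠ j → ∃ y ∈ H, y i = 0 ∧ y j ≠ 0 := by
    intro i j hij
    by_contra hcon
    push Not at hcon
    obtain ⟨θ, hθ⟩ := exists_theta H (LinearMap.proj (R := ℂ)
      (φ := fun i : Fin r => Matrix (Fin (2 * p i + q i)) (Fin (2 * p i + q i)) ℂ) i)
      (LinearMap.proj (R := ℂ)
      (φ := fun i : Fin r => Matrix (Fin (2 * p i + q i)) (Fin (2 * p i + q i)) ℂ) j) hcon
    replace hθ : ∀ y ∈ H, θ (y i) = y j := hθ
    have hbr' : ∀ y z, yᵀ = -y → zᵀ = -z → θ (br y z) = br (θ y) (θ z) := by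
      intro y z hy hz
      obtain ⟨Y, hY, rfl⟩ := A3 i y hy
      obtain ⟨W, hW, rfl⟩ := A3 i z hz
      have h1 := hθ _ (A2 Y hY W hW)
      rw [hθ Y hY, hθ W hW]
      exact h1
    have hinj : ∀ y, yᵀ = -y → θ y = 0 → y = 0 := by
      intro y hy hy0
      by_contra hne
      have hall : ∀ Z : Matrix (Fin (2 * p i + q i)) (Fin (2 * p i + q i)) ℂ, Zᵀ = -Z →
          θ Z = 0 := by
        intro Z hZ
        let J : Submodule ℂ (Matrix (Fin (2 * p i + q i)) (Fin (2 * p i + q i)) ℂ) :=
          { carrier := {y | yᵀ = -y ∧ θ y = 0}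
            zero_mem' := by simp
            add_mem' := by
              rintro a b ⟨ha, ha'⟩ ⟨hb, hb'⟩
              refine ⟨?_, ?_⟩
              · rw [Matrix.transpose_add, ha, hb]; abel
              · rw [map_add, ha', hb', add_zero]
            smul_mem' := by
              rintro z a ⟨ha, ha'⟩
              refine ⟨?_, ?_⟩
              · rw [Matrix.transpose_smul, ha, smul_neg]
              · rw [map_smul, ha', smul_zero] }
        have h1 : Z ∈ J := by
          apply Pool.Agent.W589.PG.Sim.sim _ (hm i).1 (hm i).2.1 J (fun y hy => hy.1) _ _ Z hZ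
          · intro Z hZ y hy
            refine ⟨?_, ?_⟩
            · unfold br
              rw [Matrix.transpose_sub, Matrix.transpose_mul, Matrix.transpose_mul, hy.1, hZ]
              simp only [Matrix.neg_mul, Matrix.mul_neg, neg_neg]
              abel
            · rw [hbr' Z y hZ hy.1, hy.2]
              unfold br
              rw [Matrix.mul_zero, Matrix.zero_mul, sub_zero]
          · intro hJ
            apply hne
            have : y ∈ J := ⟨hy, hy0⟩
            rw [hJ] at this
            exact (Submodule.mem_bot ℂ).1 this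
        exact h1.2
      have hj3 := (hm j).1
      obtain ⟨i0, i1, hi⟩ : ∃ i0 i1 : Fin (2 * p j + q j), i0 ≠ i1 :=
        ⟨⟨0, by omega⟩, ⟨1, by omega⟩, by simp [Fin.ext_iff]⟩
      obtain ⟨W, hW, hWj⟩ := A3 j (Matrix.single i0 i1 1 - Matrix.single i1 i0 1) (by
          rw [Matrix.transpose_sub, Matrix.transpose_single, Matrix.transpose_single, neg_sub])
      have h2 := hθ W hW
      rw [hall _ (A1 W hW i), hWj] at h2
      have h3 := congrFun (congrFun h2 i0) i1
      simp [Matrix.single, hi, hi.symm] at h3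
    have hiso : IsoSo θ := by
      refine ⟨?_, hinj, ?_, hbr'⟩
      · intro y hy
        obtain ⟨Y, hY, rfl⟩ := A3 i y hy
        rw [hθ Y hY]
        exact A1 Y hY j
      · intro z hz
        obtain ⟨Y, hY, rfl⟩ := A3 j z hz
        exact ⟨Y i, A1 Y hY i, hθ Y hY⟩
    have hθy : ∀ y ∈ h, θ (y.submatrix (e i) (e i)) = y.submatrix (e j) (e j) := by
      intro y hy
      have h1 := hθ _ (mem y hy)
      rw [hph, hph] at h1
      exact h1
    have hski : ∀ y ∈ h, (y.submatrix (e i) (e i))ᵀ = -(y.submatrix (e i) (e i)) := by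
      intro y hy
      rw [sub_T, hsk y hy]
      rfl
    obtain ⟨A, hA0, hA⟩ := thtF (2 * p i + q i) (2 * p j + q j) (p i) (hm i).1 (hm j).1
      (hm i).2.2 θ hiso (x.submatrix (e i) (e i)) (hski x hx)
      (sub_cube (he i) (hbd x hx) hcube) (sub_trace (he i) (hbd x hx) _ (htr i)) (by
        rw [hθy x hx, sub_cube (he j) (hbd x hx) hcube])
    obtain ⟨C, hC⟩ : ∃ C, C = sel (e j) * A * (sel (e i))ᵀ := ⟨_, rfl⟩
    obtain ⟨d, hd⟩ := hcom C (fun y hy => by
      rw [hC]
      exact comm_sel (he i) (he j) (hbd y hy) A (by rw [hA _ (hski y hy), hθy y hy]))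
    have hC2 : C = 0 := by
      ext a a'
      by_cases haa' : a = a'
      · subst haa'
        rw [hC, Matrix.zero_apply]
        by_cases hai : c a = i
        · have h1 : ∀ l, (sel (e j) * A) a l = 0 := by
            intro l
            rw [Matrix.mul_apply]
            refine Finset.sum_eq_zero fun l' _ => ?_
            have h2 : sel (e j) a l' = 0 := by
              rw [sel, Matrix.of_apply, if_neg]
              intro h
              apply hij
              rw [← hai, ← h, (he j).col]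
            rw [h2, zero_mul]
          rw [Matrix.mul_apply]
          refine Finset.sum_eq_zero fun l _ => ?_
          rw [h1, zero_mul]
        · rw [Matrix.mul_apply]
          refine Finset.sum_eq_zero fun l _ => ?_
          have h2 : (sel (e i))ᵀ l a = 0 := by
            rw [Matrix.transpose_apply, sel, Matrix.of_apply, if_neg]
            intro h
            apply hai
            rw [← h, (he i).col]
          rw [h2, mul_zero]
      · rw [hd, Matrix.diagonal_apply_ne _ haa', Matrix.zero_apply]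
    apply hA0
    have h4 : A = (sel (e j))ᵀ * C * sel (e i) := by
      rw [hC]
      calc A = ((sel (e j))ᵀ * sel (e j)) * A * ((sel (e i))ᵀ * sel (e i)) := by
            rw [sel_T_sel _ (he j).inj, sel_T_sel _ (he i).inj, Matrix.one_mul, Matrix.mul_one]
        _ = _ := by simp only [Matrix.mul_assoc]
    rw [h4, hC2, Matrix.mul_zero, Matrix.zero_mul]
  have key := Pool.Agent.W756.PG.gou Pool.Agent.W589.PG.Sim.sim r (fun i => 2 * p i + q i)
    (fun i => ⟨(hm i).1, (hm i).2.1⟩) H A1 A2 A3 A4 (ph Z) (fun i => by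
      rw [hph, sub_T, hZ]
      rfl)
  rw [hH] at key
  obtain ⟨y, hy, hyZ⟩ := key
  have hfin : y = Z := by
    refine ext_of_sub he (hbd y hy) hZc fun i => ?_
    have h1 := congrFun hyZ i
    rw [hph, hph] at h1
    exact h1
  rw [← hfin]
  exact hy

end

end Pool.Agent.W460.TP
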